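import Pool.Agent.Y381.Prim.Net

/-!
The union of the chain of nets: every finite closed partial isomorphism of a stage extends to an
automorphism of the union, the automorphism group is primitive on the cells, and the finite squares
of the union are copies of squares of the first net. (Adapted from `Pool.Agent.W454.PrimLimit`,
which treats finite nets.)
-/

set_option autoImplicit false

universe w

namespace Pool.Agent.Y381.Prim

noncomputable section

variable {K : Type w} [Infinite K]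

/-- The numbering of the next family. -/
def sg (K : Type w) [Infinite K] : K → K ⊕ (K ⊕ (ZMod 3 × Finset (U K × U K))) :=
  Classical.choose (exists_surj (K := K))

theorem sg_surj : Function.Surjective (sg K) := Classical.choose_spec (exists_surj (K := K))

open Classical in
/-- The finite member with the given number, or the empty partial isomorphism. -/
def finMem (N : Net K) (s : ZMod 3) (f : Finset (U K × U K)) : ZMod 3 × Set (U K × U K) :=
  if PI N s (f : Set (U K × U K)) then (s, f) else (0, ∅)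

theorem empty_PI (N : Net K) (s : ZMod 3) : PI N s ∅ := by
  refine ⟨?_, ?_, ?_, ?_, ?_, ?_, ?_⟩ <;> simp

theorem finMem_PI (N : Net K) (s : ZMod 3) (f : Finset (U K × U K)) :
    PI N (finMem N s f).1 (finMem N s f).2 := by
  unfold finMem
  split_ifs with h
  · exact h
  · exact empty_PI N 0

/-- A stage: a net with a family of closed partial isomorphisms. -/
structure Stage (K : Type w) where
  N : Net K
  A : Fam N

/-- The family of all finite closed partial isomorphisms. -/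
def fam0 (N : Net K) : Fam N where
  F := fun k => match sg K k with
    | Sum.inl _ => (0, ∅)
    | Sum.inr (Sum.inl _) => (0, ∅)
    | Sum.inr (Sum.inr (s, f)) => finMem N s f
  pi := by
    intro k
    rcases h : sg K k with _ | _ | ⟨s, f⟩
    · exact empty_PI N 0
    · exact empty_PI N 0
    · exact finMem_PI N s f

/-- The family of the extensions to the completed net and all finite closed partial
isomorphisms. -/
def fam1 {N : Net K} (A : Fam N) {j : U K × U K → U K} (hj : PlusData N j) : Fam (plus hj) where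
  F := fun k => match sg K k with
    | Sum.inl k' => ((A.F k').1, plusRel N j (A.F k').2)
    | Sum.inr (Sum.inl _) => (0, ∅)
    | Sum.inr (Sum.inr (s, f)) => finMem (plus hj) s f
  pi := by
    intro k
    rcases h : sg K k with k' | _ | ⟨s, f⟩
    · exact plus_PI hj (A.pi k')
    · exact empty_PI _ 0
    · exact finMem_PI _ s f

/-- The family of the charts, their inverses and all finite closed partial isomorphisms. -/
def fam2 {N : Net K} (A : Fam N) {j : K × U K → U K} (hj : StarData N A j) : Fam (star hj) where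
  F := fun k => match sg K k with
    | Sum.inl k' => ((A.F k').1, ch N A j k')
    | Sum.inr (Sum.inl k') => (-(A.F k').1, flip (ch N A j k'))
    | Sum.inr (Sum.inr (s, f)) => finMem (star hj) s f
  pi := by
    intro k
    rcases h : sg K k with k' | k' | ⟨s, f⟩
    · exact star_PI hj k'
    · exact (star_PI hj k').symm
    · exact finMem_PI _ s f

theorem fam0_fin {N : Net K} {s : ZMod 3} {f : Set (U K × U K)} (h : PI N s f) (hf : f.Finite) :
    ∃ k, (fam0 N).F k = (s, f) := by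
  obtain ⟨k, hk⟩ := sg_surj (K := K) (Sum.inr (Sum.inr (s, hf.toFinset)))
  refine ⟨k, ?_⟩
  change (match sg K k with
    | Sum.inl _ => (0, ∅)
    | Sum.inr (Sum.inl _) => (0, ∅)
    | Sum.inr (Sum.inr (s, f)) => finMem N s f) = _
  rw [hk]
  change finMem N s hf.toFinset = _
  unfold finMem
  rw [if_pos (by rw [hf.coe_toFinset]; exact h), hf.coe_toFinset]

theorem fam1_fin {N : Net K} {A : Fam N} {j : U K × U K → U K} {hj : PlusData N j} {s : ZMod 3}
    {f : Set (U K × U K)} (h : PI (plus hj) s f) (hf : f.Finite) :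
    ∃ k, (fam1 A hj).F k = (s, f) := by
  obtain ⟨k, hk⟩ := sg_surj (K := K) (Sum.inr (Sum.inr (s, hf.toFinset)))
  refine ⟨k, ?_⟩
  simp only [fam1, hk]
  unfold finMem
  rw [if_pos (by rw [hf.coe_toFinset]; exact h), hf.coe_toFinset]

theorem fam1_ext {N : Net K} {A : Fam N} {j : U K × U K → U K} {hj : PlusData N j} (k : K) :
    ∃ k', (fam1 A hj).F k' = ((A.F k).1, plusRel N j (A.F k).2) := by
  obtain ⟨k', hk⟩ := sg_surj (K := K) (Sum.inl k)
  refine ⟨k', ?_⟩
  simp only [fam1, hk]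

theorem fam2_fin {N : Net K} {A : Fam N} {j : K × U K → U K} {hj : StarData N A j} {s : ZMod 3}
    {f : Set (U K × U K)} (h : PI (star hj) s f) (hf : f.Finite) :
    ∃ k, (fam2 A hj).F k = (s, f) := by
  obtain ⟨k, hk⟩ := sg_surj (K := K) (Sum.inr (Sum.inr (s, hf.toFinset)))
  refine ⟨k, ?_⟩
  simp only [fam2, hk]
  unfold finMem
  rw [if_pos (by rw [hf.coe_toFinset]; exact h), hf.coe_toFinset]

theorem fam2_ext {N : Net K} {A : Fam N} {j : K × U K → U K} {hj : StarData N A j} (k : K) :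
    ∃ k', (fam2 A hj).F k' = ((A.F k).1, ch N A j k) := by
  obtain ⟨k', hk⟩ := sg_surj (K := K) (Sum.inl k)
  refine ⟨k', ?_⟩
  simp only [fam2, hk]

theorem fam2_inv {N : Net K} {A : Fam N} {j : K × U K → U K} {hj : StarData N A j} (k : K) :
    ∃ k', (fam2 A hj).F k' = (-(A.F k).1, flip (ch N A j k)) := by
  obtain ⟨k', hk⟩ := sg_surj (K := K) (Sum.inr (Sum.inl k))
  refine ⟨k', ?_⟩
  simp only [fam2, hk]

/-- The completed stage. -/
def mid (S : Stage K) : Stage K where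
  N := plus (Classical.choose_spec (exists_plusData S.N))
  A := fam1 S.A (Classical.choose_spec (exists_plusData S.N))

/-- The glued stage. -/
def glue (S : Stage K) : Stage K where
  N := star (Classical.choose_spec (exists_starData S.N S.A))
  A := fam2 S.A (Classical.choose_spec (exists_starData S.N S.A))

/-- One step of the chain: complete, then glue. -/
def next (S : Stage K) : Stage K := glue (mid S)

/-- The chain. -/
def chain (N₀ : Net K) : ℕ → Stage K
  | 0 => ⟨N₀, fam0 N₀⟩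
  | n + 1 => next (chain N₀ n)

variable {N₀ : Net K}

theorem mid_P (S : Stage K) : S.N.P ⊆ (mid S).N.P := fun _ h => Or.inl h

theorem mid_cell {S : Stage K} {x y z : U K} (h : S.N.cell x y z) : (mid S).N.cell x y z :=
  Or.inl h

theorem next_P (S : Stage K) : (mid S).N.P ⊆ (next S).N.P := fun _ h => Or.inl h

theorem next_cell {S : Stage K} {x y z : U K} (h : (mid S).N.cell x y z) :
    (next S).N.cell x y z := Or.inl h

theorem chain_P {m n : ℕ} (h : m ≤ n) : (chain N₀ m).N.P ⊆ (chain N₀ n).N.P := by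
  induction h with
  | refl => exact subset_rfl
  | step _ ih => exact ih.trans ((mid_P _).trans (next_P _))

theorem chain_cell {m n : ℕ} (h : m ≤ n) {x y z : U K} (hc : (chain N₀ m).N.cell x y z) :
    (chain N₀ n).N.cell x y z := by
  induction h with
  | refl => exact hc
  | step _ ih => exact next_cell (mid_cell ih)

theorem chain_fin {n : ℕ} {s : ZMod 3} {f : Set (U K × U K)} (h : PI (chain N₀ n).N s f)
    (hf : f.Finite) : ∃ k, (chain N₀ n).A.F k = (s, f) := by
  cases n with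
  | zero => exact fam0_fin h hf
  | succ n => exact fam2_fin h hf

/-- The points of the union. -/
def T (N₀ : Net K) : Set (U K) := {x | ∃ n, x ∈ (chain N₀ n).N.P}

/-- The cells of the union. -/
def cellT (N₀ : Net K) (x y z : U K) : Prop := ∃ n, (chain N₀ n).N.cell x y z

theorem cellT_mem {x y z : U K} (h : cellT N₀ x y z) : x ∈ T N₀ := by
  obtain ⟨n, hn⟩ := h
  exact ⟨n, (chain N₀ n).N.mem hn⟩

theorem cellT_rot {x y z : U K} (h : cellT N₀ x y z) : cellT N₀ y z x := by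
  obtain ⟨n, hn⟩ := h
  exact ⟨n, (chain N₀ n).N.rot hn⟩

theorem cellT_col {x y z : U K} (h : cellT N₀ x y z) : y.1 = x.1 + 1 := by
  obtain ⟨n, hn⟩ := h
  exact (chain N₀ n).N.col hn

theorem cellT_uniq {x y z z' : U K} (h : cellT N₀ x y z) (h' : cellT N₀ x y z') : z = z' := by
  obtain ⟨n, hn⟩ := h
  obtain ⟨m, hm⟩ := h'
  exact (chain N₀ (max n m)).N.uniq (chain_cell (le_max_left _ _) hn)
    (chain_cell (le_max_right _ _) hm)

theorem cellT_complete {x y : U K} (hx : x ∈ T N₀) (hy : y ∈ T N₀) (hc : y.1 = x.1 + 1) :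
    ∃ z, cellT N₀ x y z := by
  obtain ⟨n, hn⟩ := hx
  obtain ⟨m, hm⟩ := hy
  have h1 := chain_P (le_max_left n m) hn
  have h2 := chain_P (le_max_right n m) hm
  obtain ⟨z, hz⟩ := plus_complete (Classical.choose_spec (exists_plusData (chain N₀ (max n m)).N))
    h1 h2 hc
  exact ⟨z, max n m + 1, next_cell hz⟩

/-- Automorphisms (with colour shift `s`) of the union. -/
structure Auto (N₀ : Net K) (s : ZMod 3) (h : Set (U K × U K)) : Prop where
  dom : ∀ {x x'}, (x, x') ∈ h → x ∈ T N₀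
  rng : ∀ {x x'}, (x, x') ∈ h → x' ∈ T N₀
  func : ∀ {x y y'}, (x, y) ∈ h → (x, y') ∈ h → y = y'
  inj : ∀ {x x' y}, (x, y) ∈ h → (x', y) ∈ h → x = x'
  total : ∀ {x}, x ∈ T N₀ → ∃ x', (x, x') ∈ h
  surj : ∀ {x'}, x' ∈ T N₀ → ∃ x, (x, x') ∈ h
  col : ∀ {x x'}, (x, x') ∈ h → x'.1 = x.1 + s
  fwd : ∀ {x y z x' y' z'}, (x, x') ∈ h → (y, y') ∈ h → (z, z') ∈ h → cellT N₀ x y z →
    cellT N₀ x' y' z'
  bwd : ∀ {x y z x' y' z'}, (x, x') ∈ h → (y, y') ∈ h → (z, z') ∈ h → cellT N₀ x' y' z' →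
    cellT N₀ x y z

/-- A member of the family of a stage extends to a member of the family of the next stage that is
defined on all points of the stage, and the inverse of this extension belongs to the family too. -/
theorem ext1 {n : ℕ} {s : ZMod 3} {f : Set (U K × U K)} (h : ∃ k, (chain N₀ n).A.F k = (s, f)) :
    ∃ f', f ⊆ f' ∧ (∃ k, (chain N₀ (n + 1)).A.F k = (s, f')) ∧
      (∃ k, (chain N₀ (n + 1)).A.F k = (-s, flip f')) ∧ ∀ x ∈ (chain N₀ n).N.P,
        ∃ y, (x, y) ∈ f' := by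
  obtain ⟨k, hk⟩ := h
  obtain ⟨k1, hk1⟩ := fam1_ext (A := (chain N₀ n).A)
    (hj := Classical.choose_spec (exists_plusData (chain N₀ n).N)) k
  rw [hk] at hk1
  have hk1' : (mid (chain N₀ n)).A.F k1 = (s, plusRel (chain N₀ n).N
    (Classical.choose (exists_plusData (chain N₀ n).N)) f) := hk1
  obtain ⟨k2, hk2⟩ := fam2_ext (A := (mid (chain N₀ n)).A)
    (hj := Classical.choose_spec (exists_starData (mid (chain N₀ n)).N (mid (chain N₀ n)).A)) k1
  obtain ⟨k3, hk3⟩ := fam2_inv (A := (mid (chain N₀ n)).A)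
    (hj := Classical.choose_spec (exists_starData (mid (chain N₀ n)).N (mid (chain N₀ n)).A)) k1
  refine ⟨ch (mid (chain N₀ n)).N (mid (chain N₀ n)).A (Classical.choose
    (exists_starData (mid (chain N₀ n)).N (mid (chain N₀ n)).A)) k1, ?_, ⟨k2, ?_⟩, ⟨k3, ?_⟩, ?_⟩
  · intro p hp
    refine Or.inl ?_
    rw [hk1']
    exact Or.inl hp
  · refine hk2.trans ?_
    rw [hk1']
  · refine hk3.trans ?_
    rw [hk1']
  · intro x hx
    exact ch_total (mid_P _ hx)

theorem ext2 {n : ℕ} {s : ZMod 3} {f : Set (U K × U K)} (h : ∃ k, (chain N₀ n).A.F k = (s, f)) :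
    ∃ f', f ⊆ f' ∧ (∃ k, (chain N₀ (n + 2)).A.F k = (s, f')) ∧
      (∀ x ∈ (chain N₀ n).N.P, ∃ y, (x, y) ∈ f') ∧
      ∀ y ∈ (chain N₀ n).N.P, ∃ x, (x, y) ∈ f' := by
  obtain ⟨f1, h1, _, h2, h3⟩ := ext1 h
  obtain ⟨f2, h4, _, h5, h6⟩ := ext1 h2
  refine ⟨flip f2, ?_, ?_, ?_, ?_⟩
  · intro p hp
    exact h4 (h1 hp)
  · rw [neg_neg] at h5
    exact h5
  · intro x hx
    obtain ⟨y, hy⟩ := h3 x hx
    exact ⟨y, h4 hy⟩
  · intro y hy
    obtain ⟨x, hx⟩ := h6 y (chain_P (Nat.le_succ n) hy)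
    exact ⟨x, hx⟩

/-- The sequence of extensions of a member of the family of a stage. -/
def seq {n : ℕ} {s : ZMod 3} {f : Set (U K × U K)} (h : ∃ k, (chain N₀ n).A.F k = (s, f)) :
    (l : ℕ) → {f : Set (U K × U K) // ∃ k, (chain N₀ (n + 2 * l)).A.F k = (s, f)}
  | 0 => ⟨f, h⟩
  | l + 1 => ⟨Classical.choose (ext2 (seq h l).2), (Classical.choose_spec (ext2 (seq h l).2)).2.1⟩

theorem seq_PI {n : ℕ} {s : ZMod 3} {f : Set (U K × U K)}
    (h : ∃ k, (chain N₀ n).A.F k = (s, f)) (l : ℕ) : PI (chain N₀ (n + 2 * l)).N s (seq h l).1 := by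
  obtain ⟨k, hk⟩ := (seq h l).2
  have := (chain N₀ (n + 2 * l)).A.pi k
  rw [hk] at this
  exact this

theorem seq_mono {n : ℕ} {s : ZMod 3} {f : Set (U K × U K)}
    (h : ∃ k, (chain N₀ n).A.F k = (s, f)) {k l : ℕ} (hkl : k ≤ l) :
    (seq h k).1 ⊆ (seq h l).1 := by
  induction hkl with
  | refl => exact subset_rfl
  | @step m _ ih => exact ih.trans (Classical.choose_spec (ext2 (seq h m).2)).1

theorem seq_dom {n : ℕ} {s : ZMod 3} {f : Set (U K × U K)}
    (h : ∃ k, (chain N₀ n).A.F k = (s, f)) (k : ℕ) (x : U K)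
    (hx : x ∈ (chain N₀ (n + 2 * k)).N.P) : ∃ y, (x, y) ∈ (seq h (k + 1)).1 :=
  (Classical.choose_spec (ext2 (seq h k).2)).2.2.1 x hx

theorem seq_rng {n : ℕ} {s : ZMod 3} {f : Set (U K × U K)}
    (h : ∃ k, (chain N₀ n).A.F k = (s, f)) (k : ℕ) (x : U K)
    (hx : x ∈ (chain N₀ (n + 2 * k)).N.P) : ∃ y, (y, x) ∈ (seq h (k + 1)).1 :=
  (Classical.choose_spec (ext2 (seq h k).2)).2.2.2 x hx

/-- Every member of the family of a stage extends to an automorphism of the union. -/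
theorem exists_auto' {n : ℕ} {s : ZMod 3} {f : Set (U K × U K)}
    (h : ∃ k, (chain N₀ n).A.F k = (s, f)) : ∃ g, f ⊆ g ∧ Auto N₀ s g := by
  refine ⟨{p | ∃ k, p ∈ (seq h k).1}, fun p hp => ⟨0, hp⟩, ?_⟩
  have common : ∀ {p q : U K × U K}, (∃ k, p ∈ (seq h k).1) → (∃ k, q ∈ (seq h k).1) →
      ∃ k, p ∈ (seq h k).1 ∧ q ∈ (seq h k).1 := by
    rintro p q ⟨k, hk⟩ ⟨l, hl⟩
    exact ⟨max k l, seq_mono h (le_max_left _ _) hk, seq_mono h (le_max_right _ _) hl⟩
  refine ⟨?_, ?_, ?_, ?_, ?_, ?_, ?_, ?_, ?_⟩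
  · rintro x x' ⟨k, hk⟩
    exact ⟨_, (seq_PI h k).dom hk⟩
  · rintro x x' ⟨k, hk⟩
    exact ⟨_, (seq_PI h k).rng hk⟩
  · intro x y y' h1 h2
    obtain ⟨k, h3, h4⟩ := common h1 h2
    exact (seq_PI h k).func h3 h4
  · intro x x' y h1 h2
    obtain ⟨k, h3, h4⟩ := common h1 h2
    exact (seq_PI h k).inj h3 h4
  · rintro x ⟨m, hm⟩
    obtain ⟨y, hy⟩ := seq_dom h m x (chain_P (by omega) hm)
    exact ⟨y, _, hy⟩
  · rintro x ⟨m, hm⟩
    obtain ⟨y, hy⟩ := seq_rng h m x (chain_P (by omega) hm)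
    exact ⟨y, _, hy⟩
  · rintro x x' ⟨k, hk⟩
    exact (seq_PI h k).col hk
  · rintro x y z x' y' z' hx hy hz ⟨m, hm⟩
    obtain ⟨k, h1, h2⟩ := common hx hy
    obtain ⟨l, hl⟩ := hz
    let t := max (max k l) m
    have g1 := seq_mono h (show k ≤ t by simp [t]) h1
    have g2 := seq_mono h (show k ≤ t by simp [t]) h2
    have g3 := seq_mono h (show l ≤ t by simp [t]) hl
    have hc := chain_cell (show m ≤ n + 2 * t by
      have : m ≤ t := le_max_right _ _
      omega) hm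
    obtain ⟨w, hw, hc'⟩ := (seq_PI h t).fwd g1 g2 hc
    rw [(seq_PI h t).func g3 hw]
    exact ⟨_, hc'⟩
  · rintro x y z x' y' z' hx hy hz ⟨m, hm⟩
    obtain ⟨k, h1, h2⟩ := common hx hy
    obtain ⟨l, hl⟩ := hz
    let t := max (max k l) m
    have g1 := seq_mono h (show k ≤ t by simp [t]) h1
    have g2 := seq_mono h (show k ≤ t by simp [t]) h2
    have g3 := seq_mono h (show l ≤ t by simp [t]) hl
    have hc := chain_cell (show m ≤ n + 2 * t by
      have : m ≤ t := le_max_right _ _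
      omega) hm
    obtain ⟨w, hw, hc'⟩ := (seq_PI h t).bwd g1 g2 hc
    rw [(seq_PI h t).inj g3 hw]
    exact ⟨_, hc'⟩

/-- Every finite closed partial isomorphism of a stage extends to an automorphism of the union. -/
theorem exists_auto {n : ℕ} {s : ZMod 3} {f : Set (U K × U K)} (h : PI (chain N₀ n).N s f)
    (hf : f.Finite) : ∃ g, f ⊆ g ∧ Auto N₀ s g :=
  exists_auto' (chain_fin h hf)

/-- Every finite closed partial isomorphism of a completed stage extends to an automorphism of the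
union, and the extension maps the other points of the completed stage to new points. -/
theorem exists_auto_mid {n : ℕ} {s : ZMod 3} {f : Set (U K × U K)}
    (h : PI (mid (chain N₀ n)).N s f) (hf : f.Finite) :
    ∃ g k, (mid (chain N₀ n)).A.F k = (s, f) ∧ f ⊆ g ∧ Auto N₀ s g ∧
      ch (mid (chain N₀ n)).N (mid (chain N₀ n)).A (Classical.choose
        (exists_starData (mid (chain N₀ n)).N (mid (chain N₀ n)).A)) k ⊆ g := by
  obtain ⟨k1, hk1⟩ : ∃ k, (mid (chain N₀ n)).A.F k = (s, f) := fam1_fin h hf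
  obtain ⟨k2, hk2⟩ := fam2_ext (A := (mid (chain N₀ n)).A)
    (hj := Classical.choose_spec (exists_starData (mid (chain N₀ n)).N (mid (chain N₀ n)).A)) k1
  rw [hk1] at hk2
  obtain ⟨g, h3, h4⟩ := exists_auto' (N₀ := N₀) (n := n + 1) ⟨k2, hk2⟩
  refine ⟨g, k1, hk1, fun p hp => h3 (Or.inl ?_), h4, h3⟩
  rw [hk1]
  exact hp

/-! ### Cells -/

theorem ne_of_col {x y : U K} (h : y.1 = x.1 + 1) : x ≠ y := by
  rintro rfl
  have : ∀ a : ZMod 3, a ≠ a + 1 := by decide
  exact this _ h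

/-- The partial isomorphism between two cells. -/
theorem sing_PI {N : Net K} {x y z x' y' z' : U K} (h : N.cell x y z) (h' : N.cell x' y' z') :
    PI N (x'.1 - x.1) {(x, x'), (y, y'), (z, z')} := by
  have c1 := N.col h
  have c2 := N.col (N.rot h)
  have c3 := N.col (N.rot (N.rot h))
  have d1 := N.col h'
  have d2 := N.col (N.rot h')
  have d3 := N.col (N.rot (N.rot h'))
  have key : ∀ {x y z x' y' z' : U K}, N.cell x y z → N.cell x' y' z' →
      ∀ {a b c a' b' : U K}, (a, a') ∈ ({(x, x'), (y, y'), (z, z')} : Set (U K × U K)) →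
      (b, b') ∈ ({(x, x'), (y, y'), (z, z')} : Set (U K × U K)) → N.cell a b c →
      ∃ c', (c, c') ∈ ({(x, x'), (y, y'), (z, z')} : Set (U K × U K)) ∧ N.cell a' b' c' := by
    intro x y z x' y' z' h h' a b c a' b' ha hb hc
    have c1 := N.col h
    have c2 := N.col (N.rot h)
    have c3 := N.col (N.rot (N.rot h))
    have hcol := N.col hc
    have no : ∀ t : ZMod 3, t ≠ t + 1 := by decide
    have no2 : ∀ t : ZMod 3, t ≠ t + 1 + 1 := by decide
    simp only [Set.mem_insert_iff, Set.mem_singleton_iff, Prod.mk.injEq] at ha hb ⊢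
    rcases ha with ⟨rfl, rfl⟩ | ⟨rfl, rfl⟩ | ⟨rfl, rfl⟩ <;>
    rcases hb with ⟨rfl, rfl⟩ | ⟨rfl, rfl⟩ | ⟨rfl, rfl⟩
    · exact absurd hcol (no _)
    · exact ⟨z', by simp [N.uniq hc h], h'⟩
    · exfalso
      rw [hcol] at c3
      exact no2 _ c3
    · exfalso
      rw [hcol] at c1
      exact no2 _ c1
    · exact absurd hcol (no _)
    · exact ⟨x', by simp [N.uniq hc (N.rot h)], N.rot h'⟩
    · exact ⟨y', by simp [N.uniq hc (N.rot (N.rot h))], N.rot (N.rot h')⟩
    · exfalso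
      rw [hcol] at c2
      exact no2 _ c2
    · exact absurd hcol (no _)
  have xy : x ≠ y := ne_of_col c1
  have yz : y ≠ z := ne_of_col c2
  have zx : z ≠ x := ne_of_col c3
  have xy' : x' ≠ y' := ne_of_col d1
  have yz' : y' ≠ z' := ne_of_col d2
  have zx' : z' ≠ x' := ne_of_col d3
  refine ⟨?_, ?_, ?_, ?_, ?_, ?_, ?_⟩
  · intro a a' ha
    simp only [Set.mem_insert_iff, Set.mem_singleton_iff, Prod.mk.injEq] at ha
    rcases ha with ⟨rfl, rfl⟩ | ⟨rfl, rfl⟩ | ⟨rfl, rfl⟩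
    · exact N.mem h
    · exact N.mem2 h
    · exact N.mem3 h
  · intro a a' ha
    simp only [Set.mem_insert_iff, Set.mem_singleton_iff, Prod.mk.injEq] at ha
    rcases ha with ⟨rfl, rfl⟩ | ⟨rfl, rfl⟩ | ⟨rfl, rfl⟩
    · exact N.mem h'
    · exact N.mem2 h'
    · exact N.mem3 h'
  · intro a a' a'' ha ha'
    simp only [Set.mem_insert_iff, Set.mem_singleton_iff, Prod.mk.injEq] at ha ha'
    rcases ha with ⟨rfl, rfl⟩ | ⟨rfl, rfl⟩ | ⟨rfl, rfl⟩ <;>
    rcases ha' with ⟨e, rfl⟩ | ⟨e, rfl⟩ | ⟨e, rfl⟩ <;> first | rfl | (exfalso; tauto)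
  · intro a a' a'' ha ha'
    simp only [Set.mem_insert_iff, Set.mem_singleton_iff, Prod.mk.injEq] at ha ha'
    rcases ha with ⟨rfl, rfl⟩ | ⟨rfl, rfl⟩ | ⟨rfl, rfl⟩ <;>
    rcases ha' with ⟨rfl, e⟩ | ⟨rfl, e⟩ | ⟨rfl, e⟩ <;> first | rfl | (exfalso; tauto)
  · intro a a' ha
    simp only [Set.mem_insert_iff, Set.mem_singleton_iff, Prod.mk.injEq] at ha
    rcases ha with ⟨rfl, rfl⟩ | ⟨rfl, rfl⟩ | ⟨rfl, rfl⟩
    · ring
    · rw [d1, c1]; ring
    · rw [d2, d1, c2, c1]; ring
  · intro a b c a' b' ha hb hc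
    exact key h h' ha hb hc
  · intro a b a' b' c' ha hb hc
    have ha' : (a', a) ∈ ({(x', x), (y', y), (z', z)} : Set (U K × U K)) := by
      simp only [Set.mem_insert_iff, Set.mem_singleton_iff, Prod.mk.injEq] at ha ⊢
      tauto
    have hb' : (b', b) ∈ ({(x', x), (y', y), (z', z)} : Set (U K × U K)) := by
      simp only [Set.mem_insert_iff, Set.mem_singleton_iff, Prod.mk.injEq] at hb ⊢
      tauto
    obtain ⟨c, h1, h2⟩ := key h' h ha' hb' hc
    refine ⟨c, ?_, h2⟩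
    simp only [Set.mem_insert_iff, Set.mem_singleton_iff, Prod.mk.injEq] at h1 ⊢
    tauto

/-- The union of two closed partial isomorphisms without cross cells. -/
theorem union_PI {N : Net K} {s : ZMod 3} {f g : Set (U K × U K)} (hf : PI N s f) (hg : PI N s g)
    (h : ∀ x x' y y', (x, x') ∈ f → (y, y') ∈ g → x ≠ y ∧ x' ≠ y' ∧
      ∀ r, ¬ N.cell x y r ∧ ¬ N.cell y x r ∧ ¬ N.cell x' y' r ∧ ¬ N.cell y' x' r) :
    PI N s (f ∪ g) where
  dom := by
    rintro x x' (hx | hx)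
    · exact hf.dom hx
    · exact hg.dom hx
  rng := by
    rintro x x' (hx | hx)
    · exact hf.rng hx
    · exact hg.rng hx
  func := by
    rintro x y y' (h1 | h1) (h2 | h2)
    · exact hf.func h1 h2
    · exact absurd rfl (h _ _ _ _ h1 h2).1
    · exact absurd rfl (h _ _ _ _ h2 h1).1
    · exact hg.func h1 h2
  inj := by
    rintro x x' y (h1 | h1) (h2 | h2)
    · exact hf.inj h1 h2
    · exact absurd rfl (h _ _ _ _ h1 h2).2.1
    · exact absurd rfl (h _ _ _ _ h2 h1).2.1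
    · exact hg.inj h1 h2
  col := by
    rintro x x' (hx | hx)
    · exact hf.col hx
    · exact hg.col hx
  fwd := by
    rintro x y z x' y' (h1 | h1) (h2 | h2) hc
    · obtain ⟨z', h3, h4⟩ := hf.fwd h1 h2 hc
      exact ⟨z', Or.inl h3, h4⟩
    · exact absurd hc ((h _ _ _ _ h1 h2).2.2 z).1
    · exact absurd hc ((h _ _ _ _ h2 h1).2.2 z).2.1
    · obtain ⟨z', h3, h4⟩ := hg.fwd h1 h2 hc
      exact ⟨z', Or.inr h3, h4⟩
  bwd := by
    rintro x y x' y' z' (h1 | h1) (h2 | h2) hc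
    · obtain ⟨z, h3, h4⟩ := hf.bwd h1 h2 hc
      exact ⟨z, Or.inl h3, h4⟩
    · exact absurd hc ((h _ _ _ _ h1 h2).2.2 z').2.2.1
    · exact absurd hc ((h _ _ _ _ h2 h1).2.2 z').2.2.2
    · obtain ⟨z, h3, h4⟩ := hg.bwd h1 h2 hc
      exact ⟨z, Or.inr h3, h4⟩

/-- Two cells without cross cells. -/
def Free (N : Net K) (x y z a b c : U K) : Prop :=
  N.cell x y z ∧ N.cell a b c ∧ ∀ p ∈ ({x, y, z} : Set (U K)), ∀ q ∈ ({a, b, c} : Set (U K)), p ≠ q ∧
    ∀ r, ¬ N.cell p q r ∧ ¬ N.cell q p r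

theorem pair_PI {N : Net K} {x y z a b c x' y' z' a' b' c' : U K} (h : Free N x y z a b c)
    (h' : Free N x' y' z' a' b' c') (e : x.1 = a.1) (e' : x'.1 = a'.1) :
    PI N (x'.1 - x.1) ({(x, x'), (y, y'), (z, z')} ∪ {(a, a'), (b, b'), (c, c')}) := by
  have h1 := sing_PI h.1 h'.1
  have h2 := sing_PI h.2.1 h'.2.1
  rw [← e, ← e'] at h2
  refine union_PI h1 h2 ?_
  intro p p' q q' hp hq
  have m1 : p ∈ ({x, y, z} : Set (U K)) := by
    simp only [Set.mem_insert_iff, Set.mem_singleton_iff, Prod.mk.injEq] at hp ⊢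
    tauto
  have m2 : q ∈ ({a, b, c} : Set (U K)) := by
    simp only [Set.mem_insert_iff, Set.mem_singleton_iff, Prod.mk.injEq] at hq ⊢
    tauto
  have m3 : p' ∈ ({x', y', z'} : Set (U K)) := by
    simp only [Set.mem_insert_iff, Set.mem_singleton_iff, Prod.mk.injEq] at hp ⊢
    tauto
  have m4 : q' ∈ ({a', b', c'} : Set (U K)) := by
    simp only [Set.mem_insert_iff, Set.mem_singleton_iff, Prod.mk.injEq] at hq ⊢
    tauto
  have k1 := h.2.2 p m1 q m2
  have k2 := h'.2.2 p' m3 q' m4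
  exact ⟨k1.1, k2.1, fun r => ⟨(k1.2 r).1, (k1.2 r).2, (k2.2 r).1, (k2.2 r).2⟩⟩

/-- The copy of a cell in a new chart is free from an old cell that misses the range. -/
theorem free_star {M : Net K} {A : Fam M} {j : K × U K → U K} (hj : StarData M A j) {k : K}
    {x y z a b c : U K} (h : M.cell x y z) (h' : M.cell a b c)
    (h1 : ∀ p ∈ ({x, y, z} : Set (U K)), ∀ w, (w, p) ∉ (A.F k).2)
    (h2 : ∀ q ∈ ({a, b, c} : Set (U K)), ∀ w, (q, w) ∉ (A.F k).2) :
    Free (star hj) x y z (j (k, a)) (j (k, b)) (j (k, c)) := by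
  have ca : (a, j (k, a)) ∈ ch M A j k := Or.inr ⟨M.mem h', h2 a (by simp), rfl⟩
  have cb : (b, j (k, b)) ∈ ch M A j k := Or.inr ⟨M.mem2 h', h2 b (by simp), rfl⟩
  have cc : (c, j (k, c)) ∈ ch M A j k := Or.inr ⟨M.mem3 h', h2 c (by simp), rfl⟩
  refine ⟨Or.inl h, Or.inr ⟨k, a, b, c, h', ca, cb, cc⟩, ?_⟩
  intro p hp q hq
  have hpM : p ∈ M.P := by
    simp only [Set.mem_insert_iff, Set.mem_singleton_iff] at hp
    rcases hp with rfl | rfl | rfl
    · exact M.mem h
    · exact M.mem2 h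
    · exact M.mem3 h
  have hq' : ∃ d, (d, q) ∈ ch M A j k ∧ q ∉ M.P := by
    simp only [Set.mem_insert_iff, Set.mem_singleton_iff] at hq
    rcases hq with rfl | rfl | rfl
    · exact ⟨a, ca, hj.fresh _⟩
    · exact ⟨b, cb, hj.fresh _⟩
    · exact ⟨c, cc, hj.fresh _⟩
  obtain ⟨d, hd, hqM⟩ := hq'
  refine ⟨fun e => hqM (e ▸ hpM), fun r => ⟨fun hc => ?_, fun hc => ?_⟩⟩
  · obtain ⟨w, hw⟩ := star_cross hj hpM hqM hd r (Or.inl hc)
    exact h1 p hp w hw
  · obtain ⟨w, hw⟩ := star_cross hj hpM hqM hd r (Or.inr hc)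
    exact h1 p hp w hw

theorem sing_finite {x y z x' y' z' : U K} :
    ({(x, x'), (y, y'), (z, z')} : Set (U K × U K)).Finite := by
  rw [Set.finite_def]
  exact ⟨Fintype.ofFinite _⟩

/-- The hypotheses on a relation between the cells that is invariant under all automorphisms. -/
structure InvRel (N₀ : Net K) (E : U K × U K × U K → U K × U K × U K → Prop) : Prop where
  symm : ∀ {t t'}, E t t' → E t' t
  trans : ∀ {t t' t''}, E t t' → E t' t'' → E t t''
  rot : ∀ {x y z}, cellT N₀ x y z → E (x, y, z) (y, z, x)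
  inv : ∀ {s h}, Auto N₀ s h → ∀ {x y z a b c x' y' z' a' b' c' : U K}, (x, x') ∈ h → (y, y') ∈ h →
    (z, z') ∈ h → (a, a') ∈ h → (b, b') ∈ h → (c, c') ∈ h → cellT N₀ x y z → cellT N₀ a b c →
    E (x, y, z) (a, b, c) → E (x', y', z') (a', b', c')

theorem no1 (t : ZMod 3) : t ≠ t + 1 := by revert t; decide
theorem no2 (t : ZMod 3) : t ≠ t + 1 + 1 := by revert t; decide

section step

variable {E : U K × U K × U K → U K × U K × U K → Prop} (hE : InvRel N₀ E)

include hE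

/-- First step: from an adjacent pair to a disjoint pair. -/
theorem step1 {x y z b c : U K} (h : cellT N₀ x y z) (h' : cellT N₀ x b c) (hy : y ≠ b)
    (hz : z ≠ c) (he : E (x, y, z) (x, b, c)) :
    ∃ a₁ b₁ c₁ a₂ b₂ c₂, cellT N₀ a₁ b₁ c₁ ∧ cellT N₀ a₂ b₂ c₂ ∧ a₁.1 = a₂.1 ∧ a₁ ≠ a₂ ∧
      b₁ ≠ b₂ ∧ c₁ ≠ c₂ ∧ E (a₁, b₁, c₁) (a₂, b₂, c₂) := by
  obtain ⟨n₁, hn₁⟩ := h
  obtain ⟨n₂, hn₂⟩ := h'
  have k1 := mid_cell (chain_cell (le_max_left n₁ n₂) hn₁)
  have k2 := mid_cell (chain_cell (le_max_right n₁ n₂) hn₂)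
  have hf := sing_PI k1 ((mid (chain N₀ (max n₁ n₂))).N.rot k1)
  obtain ⟨g, idx, hidx, hg1, hg2, hg3⟩ := exists_auto_mid hf sing_finite
  have hjs := Classical.choose_spec (exists_starData (mid (chain N₀ (max n₁ n₂))).N
    (mid (chain N₀ (max n₁ n₂))).A)
  set M := (mid (chain N₀ (max n₁ n₂))).N with hM
  set A := (mid (chain N₀ (max n₁ n₂))).A with hA
  set j := Classical.choose (exists_starData M A) with hj
  have e1 := M.col k1
  have e2 := M.col (M.rot k1)
  have e3 := M.col (M.rot (M.rot k1))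
  have e4 := M.col k2
  have e5 := M.col (M.rot k2)
  have e6 := M.col (M.rot (M.rot k2))
  set f : Set (U K × U K) := {(x, y), (y, z), (z, x)} with hfdef
  have hb : ∀ w, (b, w) ∉ f := by
    intro w hw
    simp only [hfdef, Set.mem_insert_iff, Set.mem_singleton_iff, Prod.mk.injEq] at hw
    rcases hw with ⟨rfl, _⟩ | ⟨rfl, _⟩ | ⟨rfl, _⟩
    · exact no1 _ e4
    · exact hy rfl
    · rw [e2, e1] at e4
      exact no1 (x.1 + 1) e4.symm
  have hc : ∀ w, (c, w) ∉ f := by
    intro w hw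
    simp only [hfdef, Set.mem_insert_iff, Set.mem_singleton_iff, Prod.mk.injEq] at hw
    rcases hw with ⟨rfl, _⟩ | ⟨rfl, _⟩ | ⟨rfl, _⟩
    · exact no1 _ e6
    · rw [e1, e4] at e5
      exact no1 _ e5
    · exact hz rfl
  have hAf : (A.F idx).2 = f := congrArg Prod.snd hidx
  have cb : (b, j (idx, b)) ∈ ch M A j idx := Or.inr ⟨M.mem2 k2, by rw [hAf]; exact hb, rfl⟩
  have cc : (c, j (idx, c)) ∈ ch M A j idx := Or.inr ⟨M.mem3 k2, by rw [hAf]; exact hc, rfl⟩
  set b' := j (idx, b) with hb'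
  set c' := j (idx, c) with hc'
  have hb'M : b' ∉ M.P := hjs.fresh _
  have hc'M : c' ∉ M.P := hjs.fresh _
  have gx : (x, y) ∈ g := hg1 (by simp [hfdef])
  have gy : (y, z) ∈ g := hg1 (by simp [hfdef])
  have gz : (z, x) ∈ g := hg1 (by simp [hfdef])
  have gb : (b, b') ∈ g := hg3 cb
  have gc : (c, c') ∈ g := hg3 cc
  have H : cellT N₀ x y z := ⟨_, hn₁⟩
  have H' : cellT N₀ x b c := ⟨_, hn₂⟩
  have E1 := hE.inv hg2 gx gy gz gx gb gc H H' he
  have H'' : cellT N₀ y b' c' := hg2.fwd gx gb gc H'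
  have E2 : E (x, b, c) (y, b', c') := hE.trans (hE.symm he) (hE.trans (hE.rot H) E1)
  have E3 : E (x, b, c) (c', y, b') :=
    hE.trans E2 (hE.trans (hE.rot H'') (hE.rot (cellT_rot H'')))
  refine ⟨x, b, c, c', y, b', H', cellT_rot (cellT_rot H''), ?_, ?_, ?_, ?_, E3⟩
  · have := cellT_col (cellT_rot (cellT_rot H''))
    have h2 := hg2.col gc
    rw [h2, e5, e4, e1]; ring_nf
    have : ∀ t : ZMod 3, t = 3 + t := by decide
    exact this _
  · intro e
    exact hc'M (e ▸ M.mem k1)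
  · exact hy.symm
  · intro e
    exact hb'M (e ▸ M.mem3 k2)

/-- Second and third step: from one disjoint pair to all pairs of cells. -/
theorem step23 {x y z a b c : U K} (h : cellT N₀ x y z) (h' : cellT N₀ a b c) (hxa : x.1 = a.1)
    (hx : x ≠ a) (hy : y ≠ b) (hz : z ≠ c) (he : E (x, y, z) (a, b, c))
    {u v w u' v' w' : U K} (k : cellT N₀ u v w) (k' : cellT N₀ u' v' w') (hu : u.1 = u'.1) :
    E (u, v, w) (u', v', w') := by
  obtain ⟨n₁, hn₁⟩ := h
  obtain ⟨n₂, hn₂⟩ := h'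
  obtain ⟨n₃, hn₃⟩ := k
  obtain ⟨n₄, hn₄⟩ := k'
  obtain ⟨n, hn⟩ : ∃ n, n = max (max n₁ n₂) (max n₃ n₄) := ⟨_, rfl⟩
  have k1 := mid_cell (chain_cell (show n₁ ≤ n by simp [hn]) hn₁)
  have k2 := mid_cell (chain_cell (show n₂ ≤ n by simp [hn]) hn₂)
  have k3 := mid_cell (chain_cell (show n₃ ≤ n by simp [hn]) hn₃)
  have k4 := mid_cell (chain_cell (show n₄ ≤ n by simp [hn]) hn₄)
  have hf := sing_PI k1 k1
  obtain ⟨g, idx, hidx, hg1, hg2, hg3⟩ := exists_auto_mid hf sing_finite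
  obtain ⟨idx0, hidx0⟩ : ∃ k, (mid (chain N₀ n)).A.F k = (0, ∅) :=
    fam1_fin (empty_PI _ 0) Set.finite_empty
  have hjs := Classical.choose_spec (exists_starData (mid (chain N₀ n)).N (mid (chain N₀ n)).A)
  set M := (mid (chain N₀ n)).N with hM
  set A := (mid (chain N₀ n)).A with hA
  set j := Classical.choose (exists_starData M A) with hj
  have e1 := M.col k1
  have e2 := M.col (M.rot k1)
  have e3 := M.col (M.rot (M.rot k1))
  have e4 := M.col k2
  have e5 := M.col (M.rot k2)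
  have e6 := M.col (M.rot (M.rot k2))
  set f : Set (U K × U K) := {(x, x), (y, y), (z, z)} with hfdef
  set s : ZMod 3 := x.1 - x.1 with hs
  have hAf : (A.F idx).2 = f := congrArg Prod.snd hidx
  have hA0 : (A.F idx0).2 = ∅ := congrArg Prod.snd hidx0
  have nc : ∀ p q : U K, q.1 = p.1 + 1 → p ≠ q := by
    rintro p q h rfl
    exact no1 _ h
  have nc2 : ∀ p q : U K, q.1 = p.1 + 1 + 1 → p ≠ q := by
    rintro p q h rfl
    exact no2 _ h
  have xb : x ≠ b := nc x b (by rw [e4, hxa])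
  have xc : x ≠ c := nc2 x c (by rw [e5, e4, hxa])
  have ya : y ≠ a := (nc a y (by rw [e1, hxa])).symm
  have yc : y ≠ c := nc y c (by rw [e5, e4, e1, hxa])
  have za : z ≠ a := (nc2 a z (by rw [e2, e1, hxa])).symm
  have zb : z ≠ b := (nc b z (by rw [e2, e1, e4, hxa])).symm
  have miss : ∀ q ∈ ({a, b, c} : Set (U K)), ∀ w, (q, w) ∉ f := by
    intro q hq w hw
    simp only [hfdef, Set.mem_insert_iff, Set.mem_singleton_iff, Prod.mk.injEq] at hw hq
    rcases hq with rfl | rfl | rfl <;> rcases hw with ⟨rfl, _⟩ | ⟨rfl, _⟩ | ⟨rfl, _⟩ <;>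
      first | exact hx rfl | exact hy rfl | exact hz rfl | exact xb rfl | exact xc rfl |
        exact ya rfl | exact yc rfl | exact za rfl | exact zb rfl
  have miss' : ∀ q ∈ ({a, b, c} : Set (U K)), ∀ w, (w, q) ∉ f := by
    intro q hq w hw
    simp only [hfdef, Set.mem_insert_iff, Set.mem_singleton_iff, Prod.mk.injEq] at hw hq
    rcases hq with rfl | rfl | rfl <;> rcases hw with ⟨_, rfl⟩ | ⟨_, rfl⟩ | ⟨_, rfl⟩ <;>
      first | exact hx rfl | exact hy rfl | exact hz rfl | exact xb rfl | exact xc rfl |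
        exact ya rfl | exact yc rfl | exact za rfl | exact zb rfl
  have F1 : Free (star hjs) a b c (j (idx, a)) (j (idx, b)) (j (idx, c)) :=
    free_star hjs k2 k2 (by rw [hAf]; exact miss') (by rw [hAf]; exact miss)
  have ca : (a, j (idx, a)) ∈ ch M A j idx :=
    Or.inr ⟨M.mem k2, by rw [hAf]; exact miss a (by simp), rfl⟩
  have cb : (b, j (idx, b)) ∈ ch M A j idx :=
    Or.inr ⟨M.mem2 k2, by rw [hAf]; exact miss b (by simp), rfl⟩
  have cc : (c, j (idx, c)) ∈ ch M A j idx :=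
    Or.inr ⟨M.mem3 k2, by rw [hAf]; exact miss c (by simp), rfl⟩
  set a' := j (idx, a) with ha'
  set b' := j (idx, b) with hb'
  set c' := j (idx, c) with hc'
  have gx : (x, x) ∈ g := hg1 (by simp [hfdef])
  have gy : (y, y) ∈ g := hg1 (by simp [hfdef])
  have gz : (z, z) ∈ g := hg1 (by simp [hfdef])
  have ga : (a, a') ∈ g := hg3 ca
  have gb : (b, b') ∈ g := hg3 cb
  have gc : (c, c') ∈ g := hg3 cc
  have H : cellT N₀ x y z := ⟨_, hn₁⟩
  have H' : cellT N₀ a b c := ⟨_, hn₂⟩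
  have H3 : cellT N₀ a' b' c' := hg2.fwd ga gb gc H'
  have E1 := hE.inv hg2 gx gy gz ga gb gc H H' he
  have E2 : E (a, b, c) (a', b', c') := hE.trans (hE.symm he) E1
  have aa' : a.1 = a'.1 := by
    have := hg2.col ga
    rw [this, hs]; simp
  -- copies along the empty partial isomorphism
  have F2 : Free (star hjs) u v w (j (idx0, u)) (j (idx0, v)) (j (idx0, w)) :=
    free_star hjs k3 k3 (by rw [hA0]; simp) (by rw [hA0]; simp)
  have F3 : Free (star hjs) u' v' w' (j (idx0, u)) (j (idx0, v)) (j (idx0, w)) :=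
    free_star hjs k4 k3 (by rw [hA0]; simp) (by rw [hA0]; simp)
  have cu : u.1 = (j (idx0, u)).1 := by
    have := hjs.col (idx0, u)
    rw [this]
    rw [hidx0]
    simp
  have H4 : cellT N₀ (j (idx0, u)) (j (idx0, v)) (j (idx0, w)) := ⟨n + 1, F2.2.1⟩
  have go : ∀ {p q r : U K}, Free (star hjs) p q r (j (idx0, u)) (j (idx0, v)) (j (idx0, w)) →
      p.1 = (j (idx0, u)).1 → E (p, q, r) (j (idx0, u), j (idx0, v), j (idx0, w)) := by
    intro p q r F hp
    have hPI : PI (chain N₀ (n + 1)).N _ _ := pair_PI F1 F aa' hp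
    obtain ⟨g', hg'1, hg'2⟩ := exists_auto hPI (sing_finite.union sing_finite)
    exact hE.inv hg'2 (hg'1 (by simp)) (hg'1 (by simp)) (hg'1 (by simp)) (hg'1 (by simp))
      (hg'1 (by simp)) (hg'1 (by simp)) H' H3 E2
  exact hE.trans (go F2 cu) (hE.symm (go F3 (hu ▸ cu)))

/-- An invariant relation that relates two different cells relates all cells. -/
theorem primitive {x y z a b c : U K} (h : cellT N₀ x y z) (h' : cellT N₀ a b c) (hxa : x.1 = a.1)
    (hne : (x, y, z) ≠ (a, b, c)) (he : E (x, y, z) (a, b, c))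
    {u v w u' v' w' : U K} (k : cellT N₀ u v w) (k' : cellT N₀ u' v' w') (hu : u.1 = u'.1) :
    E (u, v, w) (u', v', w') := by
  have fin : ∀ {y z b c x : U K}, cellT N₀ x y z → cellT N₀ x b c → y ≠ b → z ≠ c →
      E (x, y, z) (x, b, c) → E (u, v, w) (u', v', w') := by
    intro y z b c x h h' hy hz he
    obtain ⟨a₁, b₁, c₁, a₂, b₂, c₂, g1, g2, g3, g4, g5, g6, g7⟩ := step1 hE h h' hy hz he
    exact step23 hE g1 g2 g3 g4 g5 g6 g7 k k' hu
  by_cases hx : x = a
  · subst hx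
    have hy : y ≠ b := by
      rintro rfl
      exact hne (by rw [cellT_uniq h h'])
    have hz : z ≠ c := by
      rintro rfl
      exact hne (by rw [cellT_uniq (cellT_rot (cellT_rot h)) (cellT_rot (cellT_rot h'))])
    exact fin h h' hy hz he
  · by_cases hy : y = b
    · subst hy
      have hz : z ≠ c := by
        rintro rfl
        exact hx (cellT_uniq (cellT_rot h) (cellT_rot h'))
      exact fin (cellT_rot h) (cellT_rot h') hz hx
        (hE.trans (hE.symm (hE.rot h)) (hE.trans he (hE.rot h')))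
    · by_cases hz : z = c
      · subst hz
        exact fin (cellT_rot (cellT_rot h)) (cellT_rot (cellT_rot h')) hx hy
          (hE.trans (hE.rot (cellT_rot (cellT_rot h))) (hE.trans he
            (hE.symm (hE.rot (cellT_rot (cellT_rot h'))))))
      · exact step23 hE h h' hxa hx hy hz he k k' hu

end step

/-- The automorphisms are transitive on the cells. -/
theorem transitive {x y z x' y' z' : U K} (h : cellT N₀ x y z) (h' : cellT N₀ x' y' z') :
    ∃ s g, Auto N₀ s g ∧ (x, x') ∈ g ∧ (y, y') ∈ g ∧ (z, z') ∈ g := by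
  obtain ⟨n₁, hn₁⟩ := h
  obtain ⟨n₂, hn₂⟩ := h'
  have hf := sing_PI (chain_cell (le_max_left n₁ n₂) hn₁) (chain_cell (le_max_right n₁ n₂) hn₂)
  obtain ⟨g, hg1, hg2⟩ := exists_auto hf sing_finite
  exact ⟨_, g, hg2, hg1 (by simp), hg1 (by simp), hg1 (by simp)⟩

/-! ### Squares of the union -/

/-- A square of a stage is a copy of a square of the first net. -/
theorem chain_Sq (n : ℕ) : ∀ {B : ZMod 3 → Set (U K)}, Sq (chain N₀ n).N B →
    ∃ (s : ZMod 3) (g : Set (U K × U K)) (C : ZMod 3 → Set (U K)), Sq N₀ C ∧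
      (∀ {x y y'}, (x, y) ∈ g → (x, y') ∈ g → y = y') ∧
      (∀ {x x' y}, (x, y) ∈ g → (x', y) ∈ g → x = x') ∧
      (∀ i, ∀ x ∈ C i, ∃ y ∈ B (i + s), (x, y) ∈ g) ∧
      (∀ i, ∀ y ∈ B (i + s), ∃ x ∈ C i, (x, y) ∈ g) := by
  induction n with
  | zero =>
    intro B h
    refine ⟨0, {p | p.1 = p.2}, B, h, ?_, ?_, ?_, ?_⟩
    · intro x y y' h1 h2
      exact (show x = y from h1).symm.trans h2
    · intro x x' y h1 h2
      exact (show x = y from h1).trans (show x' = y from h2).symm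
    · intro i x hx
      exact ⟨x, by rw [add_zero]; exact hx, rfl⟩
    · intro i x hx
      rw [add_zero] at hx
      exact ⟨x, hx, rfl⟩
  | succ n ih =>
    intro B h
    obtain ⟨s, g, C, hC, h1, h2, h3, h4⟩ := star_Sq
      (Classical.choose_spec (exists_starData (mid (chain N₀ n)).N (mid (chain N₀ n)).A)) h
    have hC' := plus_Sq (Classical.choose_spec (exists_plusData (chain N₀ n).N)) hC
    obtain ⟨s', g', C', hD, k1, k2, k3, k4⟩ := ih hC'
    refine ⟨s' + s, {p | ∃ y, (p.1, y) ∈ g' ∧ (y, p.2) ∈ g}, C', hD, ?_, ?_, ?_, ?_⟩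
    · rintro x y y' ⟨a, ha, ha'⟩ ⟨b, hb, hb'⟩
      have e := k1 ha hb
      subst e
      exact h1 ha' hb'
    · rintro x x' y ⟨a, ha, ha'⟩ ⟨b, hb, hb'⟩
      have e := h2 ha' hb'
      subst e
      exact k2 ha hb
    · intro i x hx
      obtain ⟨y, hy, hxy⟩ := k3 i x hx
      obtain ⟨z, hz, hyz⟩ := h3 _ y hy
      exact ⟨z, by rw [← add_assoc]; exact hz, y, hxy, hyz⟩
    · intro i z hz
      rw [← add_assoc] at hz
      obtain ⟨y, hy, hyz⟩ := h4 _ z hz
      obtain ⟨x, hx, hxy⟩ := k4 _ y hy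
      exact ⟨x, hx, y, hxy, hyz⟩

/-- Finitely many points of the union lie in a common stage. -/
theorem exists_stage (S : Set (U K)) (hS : S.Finite) :
    (∀ x ∈ S, x ∈ T N₀) → ∃ n, ∀ x ∈ S, x ∈ (chain N₀ n).N.P := by
  induction S, hS using Set.Finite.induction_on with
  | empty => intro _; exact ⟨0, by simp⟩
  | @insert a S _ _ ih =>
    intro hT
    obtain ⟨n, hn⟩ := ih (fun x hx => hT x (Set.mem_insert_of_mem _ hx))
    obtain ⟨m, hm⟩ := hT a (Set.mem_insert _ _)
    refine ⟨max n m, ?_⟩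
    rintro x (rfl | hx)
    · exact chain_P (le_max_right _ _) hm
    · exact chain_P (le_max_left _ _) (hn x hx)

/-- A finite square of the union is a square of a stage. -/
theorem exists_stage_Sq {B : ZMod 3 → Set (U K)} (hfin : ∀ i, (B i).Finite)
    (hmem : ∀ {i x}, x ∈ B i → x ∈ T N₀) (hcol : ∀ {i x}, x ∈ B i → x.1 = i)
    (htwo : ∀ i x, ∃ y ∈ B i, y ≠ x)
    (hcell : ∀ {i x y}, x ∈ B i → y ∈ B (i + 1) → ∃ z ∈ B (i + 1 + 1), cellT N₀ x y z) :
    ∃ n, Sq (chain N₀ n).N B := by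
  -- a stage that contains all points
  obtain ⟨n, hn⟩ := exists_stage (N₀ := N₀) (⋃ i, B i) (Set.finite_iUnion hfin) (by
    intro x hx
    obtain ⟨i, hi⟩ := Set.mem_iUnion.1 hx
    exact hmem hi)
  -- the next stage contains all cells
  refine ⟨n + 1, ⟨?_, hcol, htwo, ?_⟩⟩
  · intro i x hx
    exact chain_P (Nat.le_succ n) (hn x (Set.mem_iUnion.2 ⟨i, hx⟩))
  · intro i x y hx hy
    obtain ⟨z, hz, hc⟩ := hcell hx hy
    obtain ⟨z', hz'⟩ := plus_complete
      (Classical.choose_spec (exists_plusData (chain N₀ n).N))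
      (hn x (Set.mem_iUnion.2 ⟨_, hx⟩)) (hn y (Set.mem_iUnion.2 ⟨_, hy⟩)) (cellT_col hc)
    have h1 : (chain N₀ (n + 1)).N.cell x y z' := next_cell hz'
    have h2 : z = z' := cellT_uniq hc ⟨n + 1, h1⟩
    subst h2
    exact ⟨z, hz, h1⟩

end

end Pool.Agent.Y381.Prim
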