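import Mathlib

/-!
Partial three-coloured nets (partial Latin squares written as sets of points with three
colours and cells) over an arbitrary infinite type `K`, their closed partial isomorphisms, the step
that completes all undefined pairs, and the step that glues a copy of the whole net along every
member of a family of closed partial isomorphisms. (Adapted from `Pool.Agent.W454.PrimNet`, which
treats finite nets.)
-/

set_option autoImplicit false

universe w

namespace Pool.Agent.Y381.Prim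

/-- Points: a colour, an element of `K` and a level. -/
abbrev U (K : Type w) := ZMod 3 × (K × ℕ)

/-- A partial net with points of bounded level. Cells are written with cyclically increasing
colours. -/
structure Net (K : Type w) where
  P : Set (U K)
  lev : ∃ M : ℕ, ∀ x ∈ P, x.2.2 ≤ M
  cell : U K → U K → U K → Prop
  mem : ∀ {x y z}, cell x y z → x ∈ P
  col : ∀ {x y z}, cell x y z → y.1 = x.1 + 1
  rot : ∀ {x y z}, cell x y z → cell y z x
  uniq : ∀ {x y z z'}, cell x y z → cell x y z' → z = z'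

namespace Net

variable {K : Type w} (N : Net K)

theorem mem2 {x y z : U K} (h : N.cell x y z) : y ∈ N.P := N.mem (N.rot h)
theorem mem3 {x y z : U K} (h : N.cell x y z) : z ∈ N.P := N.mem (N.rot (N.rot h))

end Net

variable {K : Type w}

/-- A closed partial isomorphism with colour shift `s`. -/
structure PI (N : Net K) (s : ZMod 3) (f : Set (U K × U K)) : Prop where
  dom : ∀ {x x'}, (x, x') ∈ f → x ∈ N.P
  rng : ∀ {x x'}, (x, x') ∈ f → x' ∈ N.P
  func : ∀ {x y y'}, (x, y) ∈ f → (x, y') ∈ f → y = y'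
  inj : ∀ {x x' y}, (x, y) ∈ f → (x', y) ∈ f → x = x'
  col : ∀ {x x'}, (x, x') ∈ f → x'.1 = x.1 + s
  fwd : ∀ {x y z x' y'}, (x, x') ∈ f → (y, y') ∈ f → N.cell x y z →
    ∃ z', (z, z') ∈ f ∧ N.cell x' y' z'
  bwd : ∀ {x y x' y' z'}, (x, x') ∈ f → (y, y') ∈ f → N.cell x' y' z' →
    ∃ z, (z, z') ∈ f ∧ N.cell x y z

/-- The inverse relation. -/
def flip (f : Set (U K × U K)) : Set (U K × U K) := {p | (p.2, p.1) ∈ f}

@[simp] theorem mem_flip {f : Set (U K × U K)} {x y : U K} : (x, y) ∈ flip f ↔ (y, x) ∈ f := Iff.rfl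

theorem flip_flip (f : Set (U K × U K)) : flip (flip f) = f := rfl

theorem PI.symm {N : Net K} {s : ZMod 3} {f : Set (U K × U K)} (h : PI N s f) : PI N (-s) (flip f) where
  dom := fun hx => h.rng hx
  rng := fun hx => h.dom hx
  func := fun h1 h2 => h.inj h1 h2
  inj := fun h1 h2 => h.func h1 h2
  col := fun hx => by rw [h.col hx]; ring
  fwd := fun h1 h2 hc => by
    obtain ⟨z, hz, hc'⟩ := h.bwd h1 h2 hc
    exact ⟨z, hz, hc'⟩
  bwd := fun h1 h2 hc => by
    obtain ⟨z, hz, hc'⟩ := h.fwd h1 h2 hc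
    exact ⟨z, hz, hc'⟩

/-- Fresh points with prescribed colours. -/
theorem exists_fresh {α : Type*} (e : α → K) (he : Function.Injective e) (c : α → ZMod 3)
    (P : Set (U K)) (hP : ∃ M : ℕ, ∀ x ∈ P, x.2.2 ≤ M) : ∃ j : α → U K, Function.Injective j ∧
      (∀ y, (j y).1 = c y) ∧ (∀ y, j y ∉ P) ∧ ∃ M : ℕ, ∀ y, (j y).2.2 ≤ M := by
  obtain ⟨M, hM⟩ := hP
  refine ⟨fun y => (c y, (e y, M + 1)), ?_, fun y => rfl, ?_, M + 1, fun y => le_rfl⟩
  · intro a b h
    exact he (congrArg (fun p => p.2.1) h)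
  · intro y hy
    have : M + 1 ≤ M := hM _ hy
    omega

/-! ### Cardinalities -/

theorem card_U [Infinite K] : Cardinal.mk (U K) = Cardinal.mk K := by
  have hK : Cardinal.aleph0 ≤ Cardinal.mk K := Cardinal.infinite_iff.1 inferInstance
  have h1 : Cardinal.mk (K × ℕ) = Cardinal.mk K := by
    simp only [Cardinal.mk_prod, Cardinal.lift_uzero, Cardinal.mk_nat, Cardinal.lift_aleph0]
    exact Cardinal.mul_aleph0_eq hK
  have h2 : Cardinal.mk (U K) =
      Cardinal.lift.{w} (Cardinal.mk (ZMod 3)) * Cardinal.mk (K × ℕ) := by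
    simp only [U]
    rw [Cardinal.mk_prod, Cardinal.lift_uzero]
  rw [h2, h1]
  refine Cardinal.mul_eq_right hK ?_ ?_
  · refine le_trans ?_ hK
    rw [Cardinal.lift_le_aleph0]
    exact Cardinal.mk_le_aleph0
  · rw [Ne, Cardinal.lift_eq_zero]
    exact Cardinal.mk_ne_zero _

/-- There is an injection of the pairs of points to `K`. -/
theorem embPair [Infinite K] : Nonempty (U K × U K ↪ K) := by
  have hK : Cardinal.aleph0 ≤ Cardinal.mk K := Cardinal.infinite_iff.1 inferInstance
  rw [← Cardinal.le_def, ← Cardinal.mul_def, card_U, Cardinal.mul_eq_self hK]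

/-- There is an injection of `K × U K` to `K`. -/
theorem embIdx [Infinite K] : Nonempty (K × U K ↪ K) := by
  have hK : Cardinal.aleph0 ≤ Cardinal.mk K := Cardinal.infinite_iff.1 inferInstance
  rw [← Cardinal.le_def, ← Cardinal.mul_def, card_U, Cardinal.mul_eq_self hK]

/-- There is a surjection of `K` to the indices of the next family. -/
theorem exists_surj [Infinite K] :
    ∃ σ : K → K ⊕ (K ⊕ (ZMod 3 × Finset (U K × U K))), Function.Surjective σ := by
  have hK : Cardinal.aleph0 ≤ Cardinal.mk K := Cardinal.infinite_iff.1 inferInstance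
  have h1 : Cardinal.mk (K ⊕ (K ⊕ (ZMod 3 × Finset (U K × U K)))) ≤ Cardinal.mk K := by
    have hUU : Cardinal.mk (U K × U K) = Cardinal.mk K := by
      rw [← Cardinal.mul_def, card_U, Cardinal.mul_eq_self hK]
    have hinf : Infinite (U K × U K) := by
      rw [Cardinal.infinite_iff, hUU]
      exact hK
    have hfs : Cardinal.mk (Finset (U K × U K)) = Cardinal.mk K := by
      rw [Cardinal.mk_finset_of_infinite, hUU]
    have h3 : Cardinal.mk (ZMod 3 × Finset (U K × U K)) = Cardinal.mk K := by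
      rw [Cardinal.mk_prod, Cardinal.lift_uzero, hfs]
      refine Cardinal.mul_eq_right hK ?_ ?_
      · refine le_trans ?_ hK
        rw [Cardinal.lift_le_aleph0]
        exact Cardinal.mk_le_aleph0
      · rw [Ne, Cardinal.lift_eq_zero]
        exact Cardinal.mk_ne_zero _
    rw [← Cardinal.add_def, ← Cardinal.add_def, h3, Cardinal.add_eq_self hK,
      Cardinal.add_eq_self hK]
  obtain ⟨e⟩ := Cardinal.le_def _ _ |>.1 h1
  have : Nonempty (K ⊕ (K ⊕ (ZMod 3 × Finset (U K × U K)))) := ⟨Sum.inr (Sum.inr (0, ∅))⟩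
  exact ⟨Function.invFun e, Function.invFun_surjective e.injective⟩

/-! ### The completion step -/

/-- Pairs of points of cyclically increasing colours that lie in no cell. -/
def undef (N : Net K) : Set (U K × U K) :=
  {p | p.1 ∈ N.P ∧ p.2 ∈ N.P ∧ p.2.1 = p.1.1 + 1 ∧ ∀ z, ¬ N.cell p.1 p.2 z}

/-- Data for the completion step. -/
structure PlusData (N : Net K) (j : U K × U K → U K) : Prop where
  inj : Set.InjOn j (undef N)
  col : ∀ p, (j p).1 = p.2.1 + 1
  fresh : ∀ p, j p ∉ N.P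
  lev : ∃ M : ℕ, ∀ p, (j p).2.2 ≤ M

theorem exists_plusData [Infinite K] (N : Net K) : ∃ j, PlusData N j := by
  obtain ⟨e⟩ := embPair (K := K)
  obtain ⟨j, h1, h2, h3, h4⟩ := exists_fresh e e.injective (fun p : U K × U K => p.2.1 + 1) N.P N.lev
  exact ⟨j, h1.injOn, h2, h3, h4⟩

section plus

variable {N : Net K} {j : U K × U K → U K} (hj : PlusData N j)

/-- A new cell. -/
def NC (N : Net K) (j : U K × U K → U K) (x y z : U K) : Prop := (x, y) ∈ undef N ∧ z = j (x, y)

theorem three_add (a : ZMod 3) : a + 1 + 1 + 1 = a := by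
  revert a; decide

/-- The net in which all undefined pairs are completed. -/
def plus (hj : PlusData N j) : Net K where
  P := N.P ∪ j '' undef N
  lev := by
    obtain ⟨M, hM⟩ := N.lev
    obtain ⟨M', hM'⟩ := hj.lev
    refine ⟨max M M', ?_⟩
    rintro x (hx | ⟨p, _, rfl⟩)
    · exact (hM x hx).trans (le_max_left _ _)
    · exact (hM' p).trans (le_max_right _ _)
  cell := fun x y z => N.cell x y z ∨ NC N j x y z ∨ NC N j y z x ∨ NC N j z x y
  mem := by
    rintro x y z (h | h | h | h)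
    · exact Or.inl (N.mem h)
    · exact Or.inl h.1.1
    · exact Or.inr ⟨_, h.1, h.2.symm⟩
    · exact Or.inl h.1.2.1
  col := by
    rintro x y z (h | h | h | h)
    · exact N.col h
    · exact h.1.2.2.1
    · have h1 : z.1 = y.1 + 1 := h.1.2.2.1
      have h2 : x.1 = z.1 + 1 := by rw [h.2, hj.col]
      rw [h2, h1, three_add]
    · have h1 : x.1 = z.1 + 1 := h.1.2.2.1
      rw [h.2, hj.col]
  rot := by
    rintro x y z (h | h | h | h)
    · exact Or.inl (N.rot h)
    · exact Or.inr (Or.inr (Or.inr h))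
    · exact Or.inr (Or.inl h)
    · exact Or.inr (Or.inr (Or.inl h))
  uniq := by
    rintro x y z z' (h | h | h | h) (k | k | k | k)
    · exact N.uniq h k
    · exact absurd h (k.1.2.2.2 _)
    · exact absurd (N.mem h) (k.2 ▸ hj.fresh _)
    · exact absurd (N.mem2 h) (k.2 ▸ hj.fresh _)
    · exact absurd k (h.1.2.2.2 _)
    · rw [h.2, k.2]
    · exact absurd h.1.1 (k.2 ▸ hj.fresh _)
    · exact absurd h.1.2.1 (k.2 ▸ hj.fresh _)
    · exact absurd (N.mem k) (h.2 ▸ hj.fresh _)
    · exact absurd k.1.1 (h.2 ▸ hj.fresh _)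
    · have := hj.inj h.1 k.1 (h.2.symm.trans k.2)
      exact congrArg Prod.snd this
    · exact absurd h.1.1 (k.2 ▸ hj.fresh _)
    · exact absurd (N.mem2 k) (h.2 ▸ hj.fresh _)
    · exact absurd k.1.2.1 (h.2 ▸ hj.fresh _)
    · exact absurd k.1.1 (h.2 ▸ hj.fresh _)
    · have := hj.inj h.1 k.1 (h.2.symm.trans k.2)
      exact congrArg Prod.fst this

/-- Extension of a closed partial isomorphism to the completed net. -/
def plusRel (N : Net K) (j : U K × U K → U K) (f : Set (U K × U K)) : Set (U K × U K) :=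
  {p | p ∈ f ∨ ∃ a b a' b', (a, a') ∈ f ∧ (b, b') ∈ f ∧ (a, b) ∈ undef N ∧ (a', b') ∈ undef N ∧
    p.1 = j (a, b) ∧ p.2 = j (a', b')}

theorem plusRel_flip (f : Set (U K × U K)) : plusRel N j (flip f) = flip (plusRel N j f) := by
  ext ⟨x, y⟩
  simp only [plusRel, flip, Set.mem_ofPred_eq]
  constructor
  · rintro (h | ⟨a, b, a', b', h1, h2, h3, h4, h5, h6⟩)
    · exact Or.inl h
    · exact Or.inr ⟨a', b', a, b, h1, h2, h4, h3, h6, h5⟩
  · rintro (h | ⟨a, b, a', b', h1, h2, h3, h4, h5, h6⟩)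
    · exact Or.inl h
    · exact Or.inr ⟨a', b', a, b, h1, h2, h4, h3, h6, h5⟩

theorem plus_func {s : ZMod 3} {f : Set (U K × U K)} (hj : PlusData N j) (h : PI N s f) {x y y' : U K}
    (h1 : (x, y) ∈ plusRel N j f) (h2 : (x, y') ∈ plusRel N j f) : y = y' := by
  rcases h1 with h1 | ⟨a, b, a', b', h1, h2', h3, h4, h5, h6⟩ <;>
  rcases h2 with k1 | ⟨c, d, c', d', k1, k2, k3, k4, k5, k6⟩
  · exact h.func h1 k1
  · exact absurd (h.dom h1) ((show x = j (c, d) from k5) ▸ hj.fresh _)
  · exact absurd (h.dom k1) ((show x = j (a, b) from h5) ▸ hj.fresh _)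
  · have e := hj.inj h3 k3 (h5.symm.trans k5)
    have e1 : a = c := congrArg Prod.fst e
    have e2 : b = d := congrArg Prod.snd e
    subst e1 e2
    have e3 := h.func h1 k1
    have e4 := h.func h2' k2
    subst e3 e4
    exact h6.trans k6.symm

theorem undef_map {s : ZMod 3} {f : Set (U K × U K)} (h : PI N s f) {x y x' y' : U K}
    (hx : (x, x') ∈ f) (hy : (y, y') ∈ f) (hu : (x, y) ∈ undef N) : (x', y') ∈ undef N := by
  refine ⟨h.rng hx, h.rng hy, ?_, ?_⟩
  · have e : y.1 = x.1 + 1 := hu.2.2.1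
    change y'.1 = x'.1 + 1
    rw [h.col hx, h.col hy, e]; ring
  · intro z hz
    obtain ⟨w, _, hw⟩ := h.bwd hx hy hz
    exact hu.2.2.2 w hw

theorem plus_fwd {s : ZMod 3} {f : Set (U K × U K)} (hj : PlusData N j) (h : PI N s f)
    {x y z x' y' : U K} (hx : (x, x') ∈ plusRel N j f) (hy : (y, y') ∈ plusRel N j f)
    (hc : (plus hj).cell x y z) :
    ∃ z', (z, z') ∈ plusRel N j f ∧ (plus hj).cell x' y' z' := by
  have old : ∀ {u u' : U K}, (u, u') ∈ plusRel N j f → u ∈ N.P → (u, u') ∈ f := by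
    rintro u u' (hu | ⟨a, b, a', b', _, _, _, _, h5, _⟩) hP
    · exact hu
    · exact absurd hP ((show u = j (a, b) from h5) ▸ hj.fresh _)
  have new : ∀ {u u' p q : U K}, (u, u') ∈ plusRel N j f → (p, q) ∈ undef N → u = j (p, q) →
      ∃ p' q', (p, p') ∈ f ∧ (q, q') ∈ f ∧ (p', q') ∈ undef N ∧ u' = j (p', q') := by
    rintro u u' p q (hu | ⟨a, b, a', b', h1, h2, h3, h4, h5, h6⟩) hpq e
    · exact absurd (h.dom hu) (e ▸ hj.fresh _)
    · have e' := hj.inj h3 hpq (h5.symm.trans e)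
      have e1 : a = p := congrArg Prod.fst e'
      have e2 : b = q := congrArg Prod.snd e'
      subst e1 e2
      exact ⟨a', b', h1, h2, h4, h6⟩
  rcases hc with hc | hc | hc | hc
  · obtain ⟨z', hz, hc'⟩ := h.fwd (old hx (N.mem hc)) (old hy (N.mem2 hc)) hc
    exact ⟨z', Or.inl hz, Or.inl hc'⟩
  · have hx' := old hx hc.1.1
    have hy' := old hy hc.1.2.1
    have hu := undef_map h hx' hy' hc.1
    exact ⟨j (x', y'), Or.inr ⟨x, y, x', y', hx', hy', hc.1, hu, hc.2, rfl⟩,
      Or.inr (Or.inl ⟨hu, rfl⟩)⟩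
  · obtain ⟨p', q', h1, h2, h3, h4⟩ := new hx hc.1 hc.2
    have hy' := old hy hc.1.1
    have e := h.func h1 hy'
    subst e
    exact ⟨q', Or.inl h2, Or.inr (Or.inr (Or.inl ⟨h3, h4⟩))⟩
  · obtain ⟨p', q', h1, h2, h3, h4⟩ := new hy hc.1 hc.2
    have hx' := old hx hc.1.2.1
    have e := h.func h2 hx'
    subst e
    exact ⟨p', Or.inl h1, Or.inr (Or.inr (Or.inr ⟨h3, h4⟩))⟩

theorem plus_PI {s : ZMod 3} {f : Set (U K × U K)} (hj : PlusData N j) (h : PI N s f) :
    PI (plus hj) s (plusRel N j f) where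
  dom := by
    rintro x x' (hx | ⟨a, b, a', b', h1, h2, h3, h4, h5, h6⟩)
    · exact Or.inl (h.dom hx)
    · exact Or.inr ⟨_, h3, h5.symm⟩
  rng := by
    rintro x x' (hx | ⟨a, b, a', b', h1, h2, h3, h4, h5, h6⟩)
    · exact Or.inl (h.rng hx)
    · exact Or.inr ⟨_, h4, h6.symm⟩
  func := fun h1 h2 => plus_func hj h h1 h2
  inj := by
    intro x x' y h1 h2
    have h1' : (y, x) ∈ plusRel N j (flip f) := by rw [plusRel_flip]; exact h1
    have h2' : (y, x') ∈ plusRel N j (flip f) := by rw [plusRel_flip]; exact h2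
    exact plus_func hj h.symm h1' h2'
  col := by
    rintro x x' (hx | ⟨a, b, a', b', h1, h2, h3, h4, h5, h6⟩)
    · exact h.col hx
    · change x = _ at h5
      change x' = _ at h6
      rw [h5, h6, hj.col, hj.col]
      change b'.1 + 1 = b.1 + 1 + s
      rw [h.col h2]; ring
  fwd := fun hx hy hc => plus_fwd hj h hx hy hc
  bwd := by
    intro x y x' y' z' hx hy hc
    have hx' : (x', x) ∈ plusRel N j (flip f) := by rw [plusRel_flip]; exact hx
    have hy' : (y', y) ∈ plusRel N j (flip f) := by rw [plusRel_flip]; exact hy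
    obtain ⟨z, hz, hc'⟩ := plus_fwd hj h.symm hx' hy' hc
    rw [plusRel_flip] at hz
    exact ⟨z, hz, hc'⟩

theorem plus_complete (hj : PlusData N j) {x y : U K} (hx : x ∈ N.P) (hy : y ∈ N.P)
    (hc : y.1 = x.1 + 1) : ∃ z, (plus hj).cell x y z := by
  by_cases h : ∃ z, N.cell x y z
  · obtain ⟨z, hz⟩ := h
    exact ⟨z, Or.inl hz⟩
  · push Not at h
    exact ⟨j (x, y), Or.inr (Or.inl ⟨⟨hx, hy, hc, h⟩, rfl⟩)⟩

end plus

/-! ### The gluing step -/

/-- A family of closed partial isomorphisms. -/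
structure Fam (N : Net K) where
  F : K → ZMod 3 × Set (U K × U K)
  pi : ∀ k, PI N (F k).1 (F k).2

/-- The missing points of the copies: a copy of the net is glued along every member of the
family. -/
def missing (N : Net K) (A : Fam N) : Set (K × U K) :=
  {q | q.2 ∈ N.P ∧ ∀ x', (q.2, x') ∉ (A.F q.1).2}

/-- Data for the gluing step. -/
structure StarData (N : Net K) (A : Fam N) (j : K × U K → U K) : Prop where
  inj : Set.InjOn j (missing N A)
  col : ∀ q, (j q).1 = q.2.1 + (A.F q.1).1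
  fresh : ∀ q, j q ∉ N.P
  lev : ∃ M : ℕ, ∀ p, (j p).2.2 ≤ M

theorem exists_starData [Infinite K] (N : Net K) (A : Fam N) : ∃ j, StarData N A j := by
  obtain ⟨e⟩ := embIdx (K := K)
  obtain ⟨j, h1, h2, h3, h4⟩ := exists_fresh e e.injective
    (fun q : K × U K => q.2.1 + (A.F q.1).1) N.P N.lev
  exact ⟨j, h1.injOn, h2, h3, h4⟩

section star

variable {N : Net K} {A : Fam N} {j : K × U K → U K}

/-- The chart of the copy that is glued along the member `k` of the family. -/
def ch (N : Net K) (A : Fam N) (j : K × U K → U K) (k : K) : Set (U K × U K) :=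
  {p | p ∈ (A.F k).2 ∨ (p.1 ∈ N.P ∧ (∀ y, (p.1, y) ∉ (A.F k).2) ∧ p.2 = j (k, p.1))}

theorem ch_sub {k : K} : (A.F k).2 ⊆ ch N A j k := fun _ h => Or.inl h

theorem ch_total {k : K} {x : U K} (hx : x ∈ N.P) : ∃ u, (x, u) ∈ ch N A j k := by
  by_cases h : ∃ y, (x, y) ∈ (A.F k).2
  · obtain ⟨y, hy⟩ := h
    exact ⟨y, Or.inl hy⟩
  · push Not at h
    exact ⟨j (k, x), Or.inr ⟨hx, h, rfl⟩⟩

theorem ch_dom {k : K} {x u : U K} (hx : (x, u) ∈ ch N A j k) : x ∈ N.P := by
  rcases hx with hx | hx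
  · exact (A.pi k).dom hx
  · exact hx.1

theorem ch_old (hj : StarData N A j) {k : K} {x u : U K}
    (hx : (x, u) ∈ ch N A j k) (hu : u ∈ N.P) : (x, u) ∈ (A.F k).2 := by
  rcases hx with hx | hx
  · exact hx
  · exact absurd hu ((show u = j (k, x) from hx.2.2) ▸ hj.fresh _)

theorem ch_new (_hj : StarData N A j) {k : K} {x u : U K}
    (hx : (x, u) ∈ ch N A j k) (hu : u ∉ N.P) :
    (k, x) ∈ missing N A ∧ u = j (k, x) := by
  rcases hx with hx | hx
  · exact absurd ((A.pi k).rng hx) hu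
  · exact ⟨⟨hx.1, hx.2.1⟩, hx.2.2⟩

theorem ch_func {k : K} {x u u' : U K}
    (hx : (x, u) ∈ ch N A j k) (hx' : (x, u') ∈ ch N A j k) : u = u' := by
  rcases hx with hx | hx <;> rcases hx' with hx' | hx'
  · exact (A.pi k).func hx hx'
  · exact absurd hx (hx'.2.1 _)
  · exact absurd hx' (hx.2.1 _)
  · exact (show u = j (k, x) from hx.2.2).trans (show u' = j (k, x) from hx'.2.2).symm

theorem ch_inj (hj : StarData N A j) {k : K} {x x' u : U K}
    (hx : (x, u) ∈ ch N A j k) (hx' : (x', u) ∈ ch N A j k) : x = x' := by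
  by_cases hu : u ∈ N.P
  · exact (A.pi k).inj (ch_old hj hx hu) (ch_old hj hx' hu)
  · obtain ⟨h1, h2⟩ := ch_new hj hx hu
    obtain ⟨h3, h4⟩ := ch_new hj hx' hu
    have e := hj.inj h1 h3 (h2.symm.trans h4)
    exact congrArg (fun q => q.2) e

theorem ch_col (hj : StarData N A j) {k : K} {x u : U K}
    (hx : (x, u) ∈ ch N A j k) : u.1 = x.1 + (A.F k).1 := by
  rcases hx with hx | hx
  · exact (A.pi k).col hx
  · rw [show u = j (k, x) from hx.2.2, hj.col]

/-- Two charts that meet outside of the old points are equal. -/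
theorem ch_same (hj : StarData N A j) {k k' : K} {x x' u : U K} (hx : (x, u) ∈ ch N A j k)
    (hx' : (x', u) ∈ ch N A j k') (hu : u ∉ N.P) : k = k' ∧ x = x' := by
  obtain ⟨h1, h2⟩ := ch_new hj hx hu
  obtain ⟨h3, h4⟩ := ch_new hj hx' hu
  have e := hj.inj h1 h3 (h2.symm.trans h4)
  exact ⟨congrArg (fun q => q.1) e, congrArg (fun q => q.2) e⟩

/-- The cells of the glued net. -/
def SC (N : Net K) (A : Fam N) (j : K × U K → U K) (u v w : U K) : Prop :=
  N.cell u v w ∨ ∃ k, ∃ x y z, N.cell x y z ∧ (x, u) ∈ ch N A j k ∧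
    (y, v) ∈ ch N A j k ∧ (z, w) ∈ ch N A j k

theorem SC_closed (hj : StarData N A j) {u v w : U K} (h : SC N A j u v w) (hu : u ∈ N.P)
    (hv : v ∈ N.P) : N.cell u v w := by
  rcases h with h | ⟨k, x, y, z, hc, hx, hy, hz⟩
  · exact h
  · obtain ⟨t, ht, hc'⟩ := (A.pi k).fwd (ch_old hj hx hu) (ch_old hj hy hv) hc
    rw [ch_func hz (Or.inl ht)]
    exact hc'

theorem SC_uniq (hj : StarData N A j) {u v w w' : U K} (h : SC N A j u v w)
    (h' : SC N A j u v w') : w = w' := by
  by_cases hu : u ∈ N.P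
  · by_cases hv : v ∈ N.P
    · exact N.uniq (SC_closed hj h hu hv) (SC_closed hj h' hu hv)
    · rcases h with h | ⟨k, x, y, z, hc, hx, hy, hz⟩
      · exact absurd (N.mem2 h) hv
      rcases h' with h' | ⟨k', x', y', z', hc', hx', hy', hz'⟩
      · exact absurd (N.mem2 h') hv
      obtain ⟨e1, e3⟩ := ch_same hj hy hy' hv
      subst e1 e3
      have e4 := ch_inj hj hx hx'
      subst e4
      have e5 := N.uniq hc hc'
      subst e5
      exact ch_func hz hz'
  · rcases h with h | ⟨k, x, y, z, hc, hx, hy, hz⟩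
    · exact absurd (N.mem h) hu
    rcases h' with h' | ⟨k', x', y', z', hc', hx', hy', hz'⟩
    · exact absurd (N.mem h') hu
    obtain ⟨e1, e3⟩ := ch_same hj hx hx' hu
    subst e1 e3
    have e4 := ch_inj hj hy hy'
    subst e4
    have e5 := N.uniq hc hc'
    subst e5
    exact ch_func hz hz'

/-- The net with all copies glued. -/
def star (hj : StarData N A j) : Net K where
  P := N.P ∪ j '' missing N A
  lev := by
    obtain ⟨M, hM⟩ := N.lev
    obtain ⟨M', hM'⟩ := hj.lev
    refine ⟨max M M', ?_⟩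
    rintro x (hx | ⟨p, _, rfl⟩)
    · exact (hM x hx).trans (le_max_left _ _)
    · exact (hM' p).trans (le_max_right _ _)
  cell := SC N A j
  mem := by
    rintro u v w (h | ⟨k, x, y, z, hc, hx, hy, hz⟩)
    · exact Or.inl (N.mem h)
    · by_cases hu : u ∈ N.P
      · exact Or.inl hu
      · obtain ⟨h1, h2⟩ := ch_new hj hx hu
        exact Or.inr ⟨_, h1, h2.symm⟩
  col := by
    rintro u v w (h | ⟨k, x, y, z, hc, hx, hy, hz⟩)
    · exact N.col h
    · rw [ch_col hj hx, ch_col hj hy, N.col hc]; ring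
  rot := by
    rintro u v w (h | ⟨k, x, y, z, hc, hx, hy, hz⟩)
    · exact Or.inl (N.rot h)
    · exact Or.inr ⟨k, y, z, x, N.rot hc, hy, hz, hx⟩
  uniq := fun h h' => SC_uniq hj h h'

theorem star_PI (hj : StarData N A j) (k : K) :
    PI (star hj) (A.F k).1 (ch N A j k) where
  dom := fun hx => Or.inl (ch_dom hx)
  rng := by
    intro x u hx
    by_cases hu : u ∈ N.P
    · exact Or.inl hu
    · obtain ⟨h1, h2⟩ := ch_new hj hx hu
      exact Or.inr ⟨_, h1, h2.symm⟩
  func := fun h1 h2 => ch_func h1 h2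
  inj := fun h1 h2 => ch_inj hj h1 h2
  col := fun hx => ch_col hj hx
  fwd := by
    intro x y z u v hx hy hc
    have hc' := SC_closed hj hc (ch_dom hx) (ch_dom hy)
    obtain ⟨w, hw⟩ := ch_total (A := A) (j := j) (k := k) (N.mem3 hc')
    exact ⟨w, hw, Or.inr ⟨k, x, y, z, hc', hx, hy, hw⟩⟩
  bwd := by
    intro x y u v w hx hy hc
    have main : N.cell u v w → ∃ z, (z, w) ∈ ch N A j k ∧ (star hj).cell x y z := by
      intro hc'
      obtain ⟨z, hz, hc''⟩ :=
        (A.pi k).bwd (ch_old hj hx (N.mem hc')) (ch_old hj hy (N.mem2 hc')) hc'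
      exact ⟨z, Or.inl hz, Or.inl hc''⟩
    by_cases hu : u ∈ N.P
    · by_cases hv : v ∈ N.P
      · exact main (SC_closed hj hc hu hv)
      · rcases hc with hc | ⟨k', x', y', z', hc', hx', hy', hz'⟩
        · exact main hc
        obtain ⟨e1, e3⟩ := ch_same hj hy hy' hv
        subst e1 e3
        have e4 := ch_inj hj hx hx'
        subst e4
        exact ⟨z', hz', Or.inl hc'⟩
    · rcases hc with hc | ⟨k', x', y', z', hc', hx', hy', hz'⟩
      · exact main hc
      obtain ⟨e1, e3⟩ := ch_same hj hx hx' hu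
      subst e1 e3
      have e4 := ch_inj hj hy hy'
      subst e4
      exact ⟨z', hz', Or.inl hc'⟩

/-- A cell that contains an old point and a new point of the copy along `F k` meets the range of
`F k` in the old point. -/
theorem star_cross (hj : StarData N A j) {k : K}
    {a p q : U K} (hp : p ∈ N.P) (hq : q ∉ N.P) (ha : (a, q) ∈ ch N A j k) (r : U K)
    (hc : (star hj).cell p q r ∨ (star hj).cell q p r) : ∃ x, (x, p) ∈ (A.F k).2 := by
  rcases hc with (hc | ⟨k', x', y', z', hc', hx', hy', hz'⟩) |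
    (hc | ⟨k', x', y', z', hc', hx', hy', hz'⟩)
  · exact absurd (N.mem2 hc) hq
  · obtain ⟨e1, e3⟩ := ch_same hj ha hy' hq
    subst e1 e3
    exact ⟨x', ch_old hj hx' hp⟩
  · exact absurd (N.mem hc) hq
  · obtain ⟨e1, e3⟩ := ch_same hj ha hx' hq
    subst e1 e3
    exact ⟨y', ch_old hj hy' hp⟩

end star

/-! ### Squares -/

/-- A square: three classes of points such that any two points of different classes lie in a cell
with a point of the third class. -/
structure Sq (N : Net K) (B : ZMod 3 → Set (U K)) : Prop where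
  mem : ∀ {i x}, x ∈ B i → x ∈ N.P
  col : ∀ {i x}, x ∈ B i → x.1 = i
  two : ∀ i x, ∃ y ∈ B i, y ≠ x
  cell : ∀ {i x y}, x ∈ B i → y ∈ B (i + 1) → ∃ z ∈ B (i + 1 + 1), N.cell x y z

/-- Squares of the completed net are squares of the net. -/
theorem plus_Sq {N : Net K} {j : U K × U K → U K} (hj : PlusData N j) {B : ZMod 3 → Set (U K)}
    (h : Sq (plus hj) B) : Sq N B := by
  have three : ∀ i : ZMod 3, i + 1 + 1 + 1 = i := three_add
  -- a new point lies in only one cell
  have one : ∀ {p : U K × U K}, p ∈ undef N → ∀ {y z}, (plus hj).cell (j p) y z →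
      y = p.1 := by
    rintro p hp y z (hc | hc | hc | hc)
    · exact absurd (N.mem hc) (hj.fresh _)
    · exact absurd hc.1.1 (hj.fresh _)
    · have e := hj.inj hp hc.1 hc.2
      exact (congrArg Prod.fst e).symm
    · exact absurd hc.1.2.1 (hj.fresh _)
  have old : ∀ {i x}, x ∈ B i → x ∈ N.P := by
    intro i x hx
    rcases h.mem hx with h1 | ⟨p, hp, rfl⟩
    · exact h1
    · exfalso
      obtain ⟨y, hy, hne⟩ := h.two (i + 1) p.1
      obtain ⟨z, _, hc⟩ := h.cell hx hy
      exact hne (one hp hc)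
  refine ⟨old, h.col, h.two, ?_⟩
  intro i x y hx hy
  obtain ⟨z, hz, hc⟩ := h.cell hx hy
  refine ⟨z, hz, ?_⟩
  rcases hc with hc | hc | hc | hc
  · exact hc
  · exact absurd (old hz) (hc.2 ▸ hj.fresh _)
  · exact absurd (old hx) (hc.2 ▸ hj.fresh _)
  · exact absurd (old hy) (hc.2 ▸ hj.fresh _)

/-- A square of the glued net is a copy of a square of the net. -/
theorem star_Sq {N : Net K} {A : Fam N} {j : K × U K → U K} (hj : StarData N A j)
    {B : ZMod 3 → Set (U K)} (h : Sq (star hj) B) : ∃ (s : ZMod 3) (g : Set (U K × U K))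
      (C : ZMod 3 → Set (U K)), Sq N C ∧
      (∀ {x y y'}, (x, y) ∈ g → (x, y') ∈ g → y = y') ∧
      (∀ {x x' y}, (x, y) ∈ g → (x', y) ∈ g → x = x') ∧
      (∀ i, ∀ x ∈ C i, ∃ y ∈ B (i + s), (x, y) ∈ g) ∧
      (∀ i, ∀ y ∈ B (i + s), ∃ x ∈ C i, (x, y) ∈ g) := by
  have three : ∀ i : ZMod 3, i + 1 + 1 + 1 = i := three_add
  by_cases hall : ∀ i, ∀ x ∈ B i, x ∈ N.P
  · refine ⟨0, {p | p.1 = p.2}, B, ⟨fun hx => hall _ _ hx, h.col, h.two, ?_⟩, ?_, ?_, ?_, ?_⟩
    · intro i x y hx hy
      obtain ⟨z, hz, hc⟩ := h.cell hx hy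
      exact ⟨z, hz, SC_closed hj hc (hall _ _ hx) (hall _ _ hy)⟩
    · intro x y y' h1 h2
      exact (show x = y from h1).symm.trans h2
    · intro x x' y h1 h2
      exact (show x = y from h1).trans (show x' = y from h2).symm
    · intro i x hx
      exact ⟨x, by rw [add_zero]; exact hx, rfl⟩
    · intro i x hx
      rw [add_zero] at hx
      exact ⟨x, hx, rfl⟩
  · push Not at hall
    obtain ⟨i, q, hq, hqN⟩ := hall
    -- the chart of the new point
    have hk : ∃ k a, (a, q) ∈ ch N A j k := by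
      rcases h.mem hq with h1 | ⟨⟨k, a⟩, hp, rfl⟩
      · exact absurd h1 hqN
      · exact ⟨k, a, Or.inr ⟨hp.1, hp.2, rfl⟩⟩
    obtain ⟨k, a, ha⟩ := hk
    -- neighbours of new points of the chart are in the chart
    have nb : ∀ {i q a}, q ∈ B i → q ∉ N.P → (a, q) ∈ ch N A j k →
        (∀ y ∈ B (i + 1), ∃ b, (b, y) ∈ ch N A j k) ∧
        (∀ y ∈ B (i + 1 + 1), ∃ b, (b, y) ∈ ch N A j k) := by
      intro i q a hq hqN ha
      constructor
      · intro y hy
        obtain ⟨z, hz, hc⟩ := h.cell hq hy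
        rcases hc with hc | ⟨k', x', y', z', hc', hx', hy', hz'⟩
        · exact absurd (N.mem hc) hqN
        · obtain ⟨e1, e3⟩ := ch_same hj ha hx' hqN
          subst e1 e3
          exact ⟨y', hy'⟩
      · intro y hy
        have hq' : q ∈ B (i + 1 + 1 + 1) := by rw [three]; exact hq
        obtain ⟨z, hz, hc⟩ := h.cell hy hq'
        rcases hc with hc | ⟨k', x', y', z', hc', hx', hy', hz'⟩
        · exact absurd (N.mem2 hc) hqN
        · obtain ⟨e1, e3⟩ := ch_same hj ha hy' hqN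
          subst e1 e3
          exact ⟨x', hx'⟩
    obtain ⟨nb1, nb2⟩ := nb hq hqN ha
    -- some point of the next two classes is new
    have hnew : (∃ y ∈ B (i + 1), y ∉ N.P) ∨ (∃ y ∈ B (i + 1 + 1), y ∉ N.P) := by
      by_contra hcon
      push Not at hcon
      obtain ⟨y, hy, _⟩ := h.two (i + 1) q
      obtain ⟨z, hz, hc⟩ := h.cell hq hy
      have hcl : N.cell y z q :=
        SC_closed hj ((star hj).rot hc) (hcon.1 y hy) (hcon.2 z hz)
      exact hqN (N.mem3 hcl)
    have all : ∀ l, ∀ y ∈ B l, ∃ b, (b, y) ∈ ch N A j k := by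
      have own : ∀ y ∈ B i, ∃ b, (b, y) ∈ ch N A j k := by
        intro y hy
        rcases hnew with ⟨r, hr, hrN⟩ | ⟨r, hr, hrN⟩
        · obtain ⟨b, hb⟩ := nb1 r hr
          obtain ⟨_, n2⟩ := nb hr hrN hb
          exact n2 y (by rw [three]; exact hy)
        · obtain ⟨b, hb⟩ := nb2 r hr
          obtain ⟨n1, _⟩ := nb hr hrN hb
          exact n1 y (by rw [three]; exact hy)
      intro l y hy
      have hl : l = i ∨ l = i + 1 ∨ l = i + 1 + 1 := by
        clear hq hqN ha nb nb1 nb2 hnew own hy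
        revert i l
        decide
      rcases hl with rfl | rfl | rfl
      · exact own y hy
      · exact nb1 y hy
      · exact nb2 y hy
    have hPI := star_PI hj k
    set s := (A.F k).1 with hs
    refine ⟨s, ch N A j k, fun l => {x | ∃ y ∈ B (l + s), (x, y) ∈ ch N A j k}, ?_,
      fun h1 h2 => ch_func h1 h2, fun h1 h2 => ch_inj hj h1 h2, fun l x hx => hx, ?_⟩
    · refine ⟨?_, ?_, ?_, ?_⟩
      · rintro l x ⟨y, hy, hxy⟩
        exact ch_dom hxy
      · rintro l x ⟨y, hy, hxy⟩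
        have h1 := ch_col hj hxy
        rw [h.col hy] at h1
        exact (add_right_cancel h1).symm
      · intro l x
        by_cases hx : ∃ y, (x, y) ∈ ch N A j k
        · obtain ⟨y, hy⟩ := hx
          obtain ⟨r, hr, hne⟩ := h.two (l + s) y
          obtain ⟨b, hb⟩ := all _ r hr
          refine ⟨b, ⟨r, hr, hb⟩, ?_⟩
          rintro rfl
          exact hne (ch_func hb hy)
        · push Not at hx
          obtain ⟨r, hr, _⟩ := h.two (l + s) x
          obtain ⟨b, hb⟩ := all _ r hr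
          refine ⟨b, ⟨r, hr, hb⟩, ?_⟩
          rintro rfl
          exact hx _ hb
      · rintro l x y ⟨u, hu, hxu⟩ ⟨v, hv, hyv⟩
        have hv' : v ∈ B (l + s + 1) := by rw [add_right_comm l s 1]; exact hv
        obtain ⟨w, hw, hc⟩ := h.cell hu hv'
        obtain ⟨z, hz, hc'⟩ := hPI.bwd hxu hyv hc
        refine ⟨z, ⟨w, ?_, hz⟩, SC_closed hj hc' (ch_dom hxu) (ch_dom hyv)⟩
        have e : l + 1 + 1 + s = l + s + 1 + 1 := by ring
        rw [e]
        exact hw
    · intro l y hy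
      obtain ⟨b, hb⟩ := all _ y hy
      exact ⟨b, ⟨y, hy, hb⟩, hb⟩

end Pool.Agent.Y381.Prim
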